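import Pool.Agent.N300.UN.Stubs
import Pool.Agent.H821R6.FZ_SUB

/-!
# Norm estimates for `∑ x_a u^{n_a+1} s u^{n_a+1} y_a` and the law of the circular element

`t_C12 : S_FOCK → S_C12` and `t_C3 : S_FOCK → S_LAWM → S_C3`.
-/

set_option autoImplicit false
set_option linter.unusedSectionVars false

noncomputable section

namespace Pool.Agent.N123.UN

open Pool.Agent.H923R2.FP Pool.Agent.H923R2.FZ Pool.Agent.N300.UN

/-! ### words -/

section words

variable {H : Type} [NormedAddCommGroup H] [InnerProductSpace ℂ H] [CompleteSpace H]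

/-- the vector of a word -/
def ew (L M : H →L[ℂ] H) (Ω : H) : List Bool → H
  | [] => Ω
  | true :: w => L (ew L M Ω w)
  | false :: w => M (ew L M Ω w)

/-- the first operator on words -/
def fP : List Bool → (List Bool →₀ ℂ)
  | [] => Finsupp.single [true] 1
  | true :: w => Finsupp.single (true :: true :: w) 1
  | false :: w => Finsupp.single (true :: false :: w) 1 + Finsupp.single w 1

/-- the second operator on words -/
def fQ : List Bool → (List Bool →₀ ℂ)
  | [] => Finsupp.single [false] 1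
  | true :: w => Finsupp.single w 1 + Finsupp.single (false :: true :: w) 1
  | false :: w => Finsupp.single (false :: false :: w) 1

def PP : (List Bool →₀ ℂ) →ₗ[ℂ] (List Bool →₀ ℂ) := Finsupp.linearCombination ℂ fP

def QQ : (List Bool →₀ ℂ) →ₗ[ℂ] (List Bool →₀ ℂ) := Finsupp.linearCombination ℂ fQ

def evw (L M : H →L[ℂ] H) (Ω : H) : (List Bool →₀ ℂ) →ₗ[ℂ] H :=
  Finsupp.linearCombination ℂ (ew L M Ω)

theorem evw_single (L M : H →L[ℂ] H) (Ω : H) (w : List Bool) (c : ℂ) :
    evw L M Ω (Finsupp.single w c) = c • ew L M Ω w := by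
  unfold evw
  rw [Finsupp.linearCombination_single]

/-- the relations -/
structure Rel (L M : H →L[ℂ] H) (Ω : H) : Prop where
  LL : star L * L = 1
  MM : star M * M = 1
  LM : star L * M = 0
  LO : star L Ω = 0
  MO : star M Ω = 0
  OO : inner ℂ Ω Ω = (1 : ℂ)

variable {L M : H →L[ℂ] H} {Ω : H}

theorem Rel.ML (r : Rel L M Ω) : star M * L = 0 := by
  have h := congrArg star r.LM
  rwa [star_mul, star_star, star_zero] at h

theorem evP (r : Rel L M Ω) (v : List Bool →₀ ℂ) :
    (L + star M) (evw L M Ω v) = evw L M Ω (PP v) := by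
  induction v using Finsupp.induction_linear with
  | zero => simp
  | add f g hf hg => rw [map_add, map_add, hf, hg, map_add, map_add]
  | single w c =>
      have key : (L + star M) (ew L M Ω w) = evw L M Ω (fP w) := by
        rw [add_apply]
        match w with
        | [] =>
            show L Ω + star M Ω = evw L M Ω (Finsupp.single [true] 1)
            rw [evw_single, r.MO, one_smul, add_zero]
            rfl
        | true :: w =>
            show L (L (ew L M Ω w)) + star M (L (ew L M Ω w)) =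
              evw L M Ω (Finsupp.single (true :: true :: w) 1)
            have h : star M (L (ew L M Ω w)) = (star M * L) (ew L M Ω w) := rfl
            rw [evw_single, h, r.ML, one_smul, zero_apply, add_zero]
            rfl
        | false :: w =>
            show L (M (ew L M Ω w)) + star M (M (ew L M Ω w)) =
              evw L M Ω (Finsupp.single (true :: false :: w) 1 + Finsupp.single w 1)
            have h : star M (M (ew L M Ω w)) = (star M * M) (ew L M Ω w) := rfl
            rw [map_add, evw_single, evw_single, h, r.MM, one_smul, one_smul]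
            rfl
      rw [evw_single, map_smul, key]
      unfold PP
      rw [Finsupp.linearCombination_single, map_smul]

theorem evQ (r : Rel L M Ω) (v : List Bool →₀ ℂ) :
    (star L + M) (evw L M Ω v) = evw L M Ω (QQ v) := by
  induction v using Finsupp.induction_linear with
  | zero => simp
  | add f g hf hg => rw [map_add, map_add, hf, hg, map_add, map_add]
  | single w c =>
      have key : (star L + M) (ew L M Ω w) = evw L M Ω (fQ w) := by
        rw [add_apply]
        match w with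
        | [] =>
            show star L Ω + M Ω = evw L M Ω (Finsupp.single [false] 1)
            rw [evw_single, r.LO, one_smul, zero_add]
            rfl
        | true :: w =>
            show star L (L (ew L M Ω w)) + M (L (ew L M Ω w)) =
              evw L M Ω (Finsupp.single w 1 + Finsupp.single (false :: true :: w) 1)
            have h : star L (L (ew L M Ω w)) = (star L * L) (ew L M Ω w) := rfl
            rw [map_add, evw_single, evw_single, h, r.LL, one_smul, one_smul]
            rfl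
        | false :: w =>
            show star L (M (ew L M Ω w)) + M (M (ew L M Ω w)) =
              evw L M Ω (Finsupp.single (false :: false :: w) 1)
            have h : star L (M (ew L M Ω w)) = (star L * M) (ew L M Ω w) := rfl
            rw [evw_single, h, r.LM, one_smul, zero_apply, zero_add]
            rfl
      rw [evw_single, map_smul, key]
      unfold QQ
      rw [Finsupp.linearCombination_single, map_smul]

/-- the universal moments -/
def um' (k : ℕ) : ℂ := ((QQ ∘ₗ PP)^[k] (Finsupp.single [] 1)) []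

theorem inner_evw (r : Rel L M Ω) (v : List Bool →₀ ℂ) : inner ℂ Ω (evw L M Ω v) = v [] := by
  induction v using Finsupp.induction_linear with
  | zero => simp
  | add f g hf hg => rw [map_add, inner_add_right, hf, hg, Finsupp.add_apply]
  | single w c =>
      rw [evw_single, inner_smul_right]
      match w with
      | [] =>
          show c * inner ℂ Ω Ω = _
          rw [r.OO, mul_one, Finsupp.single_eq_same]
      | true :: w =>
          show c * inner ℂ Ω (L (ew L M Ω w)) = _
          rw [← ContinuousLinearMap.adjoint_inner_left, ← ContinuousLinearMap.star_eq_adjoint, r.LO,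
            inner_zero_left, mul_zero, Finsupp.single_eq_of_ne (by simp)]
      | false :: w =>
          show c * inner ℂ Ω (M (ew L M Ω w)) = _
          rw [← ContinuousLinearMap.adjoint_inner_left, ← ContinuousLinearMap.star_eq_adjoint, r.MO,
            inner_zero_left, mul_zero, Finsupp.single_eq_of_ne (by simp)]

theorem moments (r : Rel L M Ω) (k : ℕ) :
    inner ℂ Ω (((star (L + star M) * (L + star M)) ^ k) Ω) = um' k := by
  have h1 : star (L + star M) = star L + M := by rw [star_add, star_star]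
  have h2 : ∀ k : ℕ, ((star (L + star M) * (L + star M)) ^ k) Ω =
      evw L M Ω ((QQ ∘ₗ PP)^[k] (Finsupp.single [] 1)) := by
    intro k
    induction k with
    | zero => simp [evw_single, ew]
    | succ k ih =>
        rw [pow_succ', Function.iterate_succ_apply']
        have h3 : (star (L + star M) * (L + star M) * (star (L + star M) * (L + star M)) ^ k) Ω =
          star (L + star M) ((L + star M) (((star (L + star M) * (L + star M)) ^ k) Ω)) := rfl
        rw [h3, ih, evP r, h1, evQ r]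
        rfl
  rw [h2, inner_evw r]
  rfl

end words

/-! ### the model -/

section model

variable {B : Type} [CStarAlgebra B]

/-- the Fock model -/
structure Fk (τ : B →ₗ[ℂ] ℂ) (S' : StarSubalgebra ℂ B) (s : B) {H : Type} [NormedAddCommGroup H]
    [InnerProductSpace ℂ H] [CompleteSpace H] (lam : B →⋆ₐ[ℂ] (H →L[ℂ] H)) (l : H →L[ℂ] H)
    (Ω : H) : Prop where
  iso : ∀ x, ‖lam x‖ = ‖x‖
  tr : ∀ x, inner ℂ Ω (lam x Ω) = τ x
  hs : lam s = l + star l
  ll : ∀ x ∈ S', star l * lam x * l = τ x • (1 : H →L[ℂ] H)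
  l0 : ∀ x ∈ S', (star l) (lam x Ω) = 0

variable {τ : B →ₗ[ℂ] ℂ} {S' : StarSubalgebra ℂ B} {s : B} {H : Type} [NormedAddCommGroup H]
    [InnerProductSpace ℂ H] [CompleteSpace H] {lam : B →⋆ₐ[ℂ] (H →L[ℂ] H)} {l : H →L[ℂ] H}
    {Ω : H} {ι : Type} [Fintype ι]

/-- `∑ X_a l Y_a` -/
def LL (lam : B →⋆ₐ[ℂ] (H →L[ℂ] H)) (l : H →L[ℂ] H) (X Y : ι → B) : H →L[ℂ] H :=
  ∑ a, lam (X a) * l * lam (Y a)

/-- the Gram element -/
def Gr (τ : B →ₗ[ℂ] ℂ) (X X' Y Y' : ι → B) : B :=
  ∑ a, ∑ b, τ (star (X a) * X' b) • (star (Y a) * Y' b)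

theorem star_LL (X Y : ι → B) :
    star (LL lam l X Y) = ∑ a, lam (star (Y a)) * star l * lam (star (X a)) := by
  unfold LL
  rw [star_sum]
  refine Finset.sum_congr rfl fun a _ => ?_
  rw [star_mul, star_mul, map_star, map_star, mul_assoc]

theorem LL_mul (f : Fk τ S' s lam l Ω) {X X' : ι → B} (Y Y' : ι → B) (hX : ∀ a, X a ∈ S')
    (hX' : ∀ a, X' a ∈ S') :
    star (LL lam l X Y) * LL lam l X' Y' = lam (Gr τ X X' Y Y') := by
  rw [star_LL]
  unfold LL Gr
  rw [Finset.sum_mul, map_sum]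
  refine Finset.sum_congr rfl fun a _ => ?_
  rw [Finset.mul_sum, map_sum]
  refine Finset.sum_congr rfl fun b _ => ?_
  have h := f.ll (star (X a) * X' b) (mul_mem (star_mem (hX a)) (hX' b))
  have e : lam (star (Y a)) * star l * lam (star (X a)) * (lam (X' b) * l * lam (Y' b)) =
      lam (star (Y a)) * (star l * lam (star (X a) * X' b) * l) * lam (Y' b) := by
    rw [map_mul]
    simp only [mul_assoc]
  rw [e, h, map_smul, map_mul lam (star (Y a)), mul_smul_comm, mul_one, smul_mul_assoc]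

theorem LL_O (f : Fk τ S' s lam l Ω) {X Y : ι → B} (hX : ∀ a, X a ∈ S') :
    star (LL lam l X Y) Ω = 0 := by
  rw [star_LL, sum_apply]
  refine Finset.sum_eq_zero fun a _ => ?_
  have h := f.l0 _ (star_mem (hX a))
  show (lam (star (Y a))) ((star l) (lam (star (X a)) Ω)) = 0
  rw [h, map_zero]

theorem lam_sum (f : Fk τ S' s lam l Ω) (X Y : ι → B) :
    lam (∑ a, X a * s * Y a) =
      LL lam l X Y + star (LL lam l (fun a => star (Y a)) (fun a => star (X a))) := by
  rw [star_LL]
  unfold LL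
  rw [map_sum, ← Finset.sum_add_distrib]
  refine Finset.sum_congr rfl fun a _ => ?_
  rw [map_mul, map_mul, f.hs, star_star, star_star, mul_add, add_mul]

/-- the moments of a family satisfying the relations -/
theorem mom (hτ : FTS τ) (f : Fk τ S' s lam l Ω) {X Y : ι → B} (hX : ∀ a, X a ∈ S')
    (hY : ∀ a, Y a ∈ S') (h1 : Gr τ X X Y Y = 1)
    (h2 : Gr τ (fun a => star (Y a)) (fun a => star (Y a)) (fun a => star (X a))
      (fun a => star (X a)) = 1)
    (h3 : Gr τ X (fun a => star (Y a)) Y (fun a => star (X a)) = 0) (k : ℕ) :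
    τ ((star (∑ a, X a * s * Y a) * ∑ a, X a * s * Y a) ^ k) = um' k := by
  have hY' : ∀ a, (fun a => star (Y a)) a ∈ S' := fun a => star_mem (hY a)
  have r : Rel (LL lam l X Y) (LL lam l (fun a => star (Y a)) (fun a => star (X a))) Ω := by
    refine ⟨?_, ?_, ?_, LL_O f hX, LL_O f hY', ?_⟩
    · rw [LL_mul f _ _ hX hX, h1, map_one]
    · rw [LL_mul f _ _ hY' hY', h2, map_one]
    · rw [LL_mul f _ _ hX hY', h3, map_zero]
    · have := f.tr 1
      rw [map_one, hτ.one] at this
      exact this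
  rw [← moments r k, ← f.tr, map_pow, map_mul, map_star, lam_sum f]

/-- the norm estimates for two families satisfying the relations -/
theorem est (f : Fk τ S' s lam l Ω) {X Y X' Y' : ι → B} (hX : ∀ a, X a ∈ S')
    (hY : ∀ a, Y a ∈ S') (hX' : ∀ a, X' a ∈ S') (hY' : ∀ a, Y' a ∈ S') :
    ‖∑ a, X a * s * Y a‖ ≤ Real.sqrt ‖Gr τ X X Y Y‖ +
      Real.sqrt ‖Gr τ (fun a => star (Y a)) (fun a => star (Y a)) (fun a => star (X a))
        (fun a => star (X a))‖ ∧
    ‖star (∑ a, X a * s * Y a) * (∑ a, X' a * s * Y' a) - Gr τ X X' Y Y'‖ ≤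
      Real.sqrt ‖Gr τ X X Y Y‖ *
        Real.sqrt ‖Gr τ (fun a => star (Y' a)) (fun a => star (Y' a)) (fun a => star (X' a))
          (fun a => star (X' a))‖ +
      Real.sqrt ‖Gr τ (fun a => star (Y a)) (fun a => star (Y a)) (fun a => star (X a))
        (fun a => star (X a))‖ *
        (Real.sqrt ‖Gr τ X' X' Y' Y'‖ +
          Real.sqrt ‖Gr τ (fun a => star (Y' a)) (fun a => star (Y' a)) (fun a => star (X' a))
            (fun a => star (X' a))‖) := by
  have hn : ∀ {X : ι → B} (Y : ι → B), (∀ a, X a ∈ S') →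
      ‖LL lam l X Y‖ = Real.sqrt ‖Gr τ X X Y Y‖ := by
    intro X Y hX
    rw [← f.iso, ← LL_mul f _ _ hX hX, CStarRing.norm_star_mul_self, Real.sqrt_mul_self
      (norm_nonneg _)]
  have hYs : ∀ a, (fun a => star (Y a)) a ∈ S' := fun a => star_mem (hY a)
  have hYs' : ∀ a, (fun a => star (Y' a)) a ∈ S' := fun a => star_mem (hY' a)
  rw [← hn Y hX, ← hn _ hYs, ← hn Y' hX', ← hn _ hYs']
  set L := LL lam l X Y
  set M := LL lam l (fun a => star (Y a)) (fun a => star (X a))
  set L' := LL lam l X' Y' with hL'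
  set M' := LL lam l (fun a => star (Y' a)) (fun a => star (X' a))
  constructor
  · rw [← f.iso, lam_sum f]
    refine (norm_add_le _ _).trans ?_
    rw [norm_star]
  · rw [← f.iso, map_sub, map_mul, map_star, lam_sum f, lam_sum f, ← LL_mul f _ _ hX hX', ← hL']
    have e : star (L + star M) * (L' + star M') - star L * L' =
        star L * star M' + M * (L' + star M') := by
      rw [star_add, star_star, add_mul, mul_add]
      abel
    rw [e]
    refine (norm_add_le _ _).trans (add_le_add ?_ ?_)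
    · refine (norm_mul_le _ _).trans ?_
      rw [norm_star, norm_star]
    · refine (norm_mul_le _ _).trans ?_
      refine mul_le_mul_of_nonneg_left ?_ (norm_nonneg _)
      refine (norm_add_le _ _).trans ?_
      rw [norm_star]

end model

/-! ### the Haar unitary -/

section haar

variable {B : Type} [CStarAlgebra B]

/-- powers of the unitary -/
def gp (u : unitary B) (k : ℤ) : B := ((u ^ k : unitary B) : B)

theorem gp_add (u : unitary B) (j k : ℤ) : gp u (j + k) = gp u j * gp u k := by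
  unfold gp
  rw [zpow_add]
  rfl

theorem gp_neg (u : unitary B) (k : ℤ) : gp u (-k) = star (gp u k) := by
  unfold gp
  rw [zpow_neg]
  rfl

theorem gp_zero (u : unitary B) : gp u 0 = 1 := by
  unfold gp
  rw [zpow_zero]
  rfl

theorem gp_nat (u : unitary B) (k : ℕ) : gp u (k : ℤ) = (u : B) ^ k := by
  unfold gp
  rw [zpow_natCast]
  rfl

theorem gp_mem (u : unitary B) (k : ℤ) : gp u k ∈ StarAlgebra.adjoin ℂ {(u : B)} := by
  have hu : (u : B) ∈ StarAlgebra.adjoin ℂ {(u : B)} :=
    StarAlgebra.subset_adjoin ℂ _ (Set.mem_singleton _)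
  rcases Int.eq_nat_or_neg k with ⟨n, rfl | rfl⟩
  · rw [gp_nat]; exact pow_mem hu n
  · rw [gp_neg, gp_nat]; exact star_mem (pow_mem hu n)

/-- orthogonality of `S` and the powers of `u` -/
def Orth (τ : B →ₗ[ℂ] ℂ) (S : StarSubalgebra ℂ B) (u : unitary B) : Prop :=
  ∀ x ∈ S, ∀ k : ℤ, k ≠ 0 → τ (x * gp u k) = 0

theorem orth {τ : B →ₗ[ℂ] ℂ} {S : StarSubalgebra ℂ B} {u : unitary B} {s : B}
    (h : FTrip τ S u s) : Orth τ S u := by
  intro x hx k hk
  have h1 := h.f1 [(true, x - (τ x) • (1 : B)), (false, gp u k)] (by simp) ?_ (by simp)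
  · simp only [List.map_cons, List.map_nil, List.prod_cons, List.prod_nil, mul_one] at h1
    rw [sub_mul, map_sub, smul_mul_assoc, one_mul, map_smul, h.hu k hk |> fun e => (e :
      τ (gp u k) = 0), smul_zero, sub_zero] at h1
    exact h1
  · intro z hz
    simp only [List.mem_cons, List.not_mem_nil, or_false] at hz
    rcases hz with rfl | rfl
    · refine ⟨?_, ?_⟩
      · simp only [if_true]
        exact sub_mem hx (S.smul_mem (one_mem _) _)
      · simp only
        rw [map_sub, map_smul, h.fts.one, smul_eq_mul, mul_one, sub_self]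
    · refine ⟨?_, h.hu k hk⟩
      simp only [Bool.false_eq_true, if_false]
      exact gp_mem u k

variable {τ : B →ₗ[ℂ] ℂ} {S : StarSubalgebra ℂ B} {u : unitary B} {ι : Type} [Fintype ι]

/-- `x_a u^{n_a + 1}` -/
def Xx (u : unitary B) (n : ι → ℕ) (x : ι → B) (a : ι) : B := x a * (u : B) ^ (n a + 1)

/-- `u^{n_a + 1} y_a` -/
def Yy (u : unitary B) (n : ι → ℕ) (y : ι → B) (a : ι) : B := (u : B) ^ (n a + 1) * y a

theorem RT_eq (u : unitary B) (s : B) (n : ι → ℕ) (x y : ι → B) :
    RT u s n x y = ∑ a, Xx u n x a * s * Yy u n y a := by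
  unfold RT Xx Yy
  refine Finset.sum_congr rfl fun a _ => ?_
  simp only [mul_assoc]

theorem Gr1 (hτ : FTS τ) (ho : Orth τ S u) {n : ι → ℕ} (hn : Function.Injective n)
    {x x' : ι → B} (y y' : ι → B) (hx : ∀ a, x a ∈ S) (hx' : ∀ a, x' a ∈ S) :
    Gr τ (Xx u n x) (Xx u n x') (Yy u n y) (Yy u n y') =
      ∑ a, τ (star (x a) * x' a) • (star (y a) * y' a) := by
  unfold Gr
  refine Finset.sum_congr rfl fun a _ => ?_
  have key : ∀ b, τ (star (Xx u n x a) * Xx u n x' b) =
      τ ((star (x a) * x' b) * gp u ((n b + 1 : ℕ) + (-((n a + 1 : ℕ) : ℤ)))) := by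
    intro b
    unfold Xx
    rw [← gp_nat, ← gp_nat, star_mul, ← gp_neg, gp_add, mul_assoc, hτ.comm]
    simp only [mul_assoc]
  rw [Finset.sum_eq_single a]
  · rw [key, add_neg_cancel, gp_zero, mul_one]
    congr 1
    unfold Yy
    rw [← gp_nat, star_mul, ← gp_neg, mul_assoc, ← mul_assoc (gp u _) (gp u _), ← gp_add,
      neg_add_cancel, gp_zero, one_mul]
  · intro b _ hb
    rw [key, ho _ (mul_mem (star_mem (hx a)) (hx' b)), zero_smul]
    intro h
    apply hb
    apply hn
    push_cast at h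
    omega
  · intro h
    exact absurd (Finset.mem_univ a) h

theorem Gr2 (hτ : FTS τ) (ho : Orth τ S u) {n : ι → ℕ} (hn : Function.Injective n)
    (x x' : ι → B) {y y' : ι → B} (hy : ∀ a, y a ∈ S) (hy' : ∀ a, y' a ∈ S) :
    Gr τ (fun a => star (Yy u n y a)) (fun a => star (Yy u n y' a))
      (fun a => star (Xx u n x a)) (fun a => star (Xx u n x' a)) =
      ∑ a, τ (y a * star (y' a)) • (x a * star (x' a)) := by
  unfold Gr
  refine Finset.sum_congr rfl fun a _ => ?_
  have key : ∀ b, τ (star (star (Yy u n y a)) * star (Yy u n y' b)) =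
      τ ((y a * star (y' b)) * gp u (-((n b + 1 : ℕ) : ℤ) + ((n a + 1 : ℕ) : ℤ))) := by
    intro b
    unfold Yy
    rw [star_star, ← gp_nat, ← gp_nat, star_mul, ← gp_neg, gp_add, mul_assoc, hτ.comm]
    simp only [mul_assoc]
  rw [Finset.sum_eq_single a]
  · rw [key, neg_add_cancel, gp_zero, mul_one]
    congr 1
    show star (star (x a * (u : B) ^ (n a + 1))) * star (x' a * (u : B) ^ (n a + 1)) = _
    rw [← gp_nat, star_star, star_mul, ← gp_neg, mul_assoc, ← mul_assoc (gp u _) (gp u _),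
      ← gp_add, add_neg_cancel, gp_zero, one_mul]
  · intro b _ hb
    rw [key, ho _ (mul_mem (hy a) (star_mem (hy' b))), zero_smul]
    intro h
    apply hb
    apply hn
    push_cast at h
    omega
  · intro h
    exact absurd (Finset.mem_univ a) h

theorem Gr3 (hτ : FTS τ) (ho : Orth τ S u) {n : ι → ℕ}
    {x y : ι → B} (hx : ∀ a, x a ∈ S) (hy : ∀ a, y a ∈ S) :
    Gr τ (Xx u n x) (fun a => star (Yy u n y a)) (Yy u n y) (fun a => star (Xx u n x a)) = 0 := by
  unfold Gr
  refine Finset.sum_eq_zero fun a _ => Finset.sum_eq_zero fun b _ => ?_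
  have key : τ (star (Xx u n x a) * star (Yy u n y b)) =
      τ ((star (x a) * star (y b)) * gp u (-((n b + 1 : ℕ) : ℤ) + -((n a + 1 : ℕ) : ℤ))) := by
    unfold Xx Yy
    rw [← gp_nat, ← gp_nat, star_mul, star_mul, ← gp_neg, ← gp_neg, gp_add, mul_assoc, hτ.comm]
    simp only [mul_assoc]
  rw [key, ho _ (mul_mem (star_mem (hx a)) (star_mem (hy b))), zero_smul]
  push_cast
  omega

end haar

/-! ### the generated subalgebra -/

section sub

variable {B : Type} [CStarAlgebra B]

/-- the generated subalgebra -/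
def TT (S : StarSubalgebra ℂ B) (s : B) : StarSubalgebra ℂ B :=
  (StarAlgebra.adjoin ℂ ((S : Set B) ∪ {s})).topologicalClosure

instance (S : StarSubalgebra ℂ B) (s : B) : IsClosed (TT S s : Set B) :=
  StarSubalgebra.isClosed_topologicalClosure _

theorem le_TT (S : StarSubalgebra ℂ B) (s : B) : S ≤ TT S s := by
  intro x hx
  exact StarSubalgebra.le_topologicalClosure _ (StarAlgebra.subset_adjoin ℂ _ (Or.inl hx))

theorem s_TT (S : StarSubalgebra ℂ B) (s : B) : s ∈ TT S s :=
  StarSubalgebra.le_topologicalClosure _ (StarAlgebra.subset_adjoin ℂ _ (Or.inr rfl))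

theorem gen_TT (S : StarSubalgebra ℂ B) (s : B) :
    (StarAlgebra.adjoin ℂ (((S.comap (TT S s).subtype : StarSubalgebra ℂ (TT S s)) :
      Set (TT S s)) ∪ {(⟨s, s_TT S s⟩ : TT S s)})).topologicalClosure = ⊤ := by
  rw [eq_top_iff]
  rintro z -
  have h1 : (StarAlgebra.adjoin ℂ (((S.comap (TT S s).subtype : StarSubalgebra ℂ (TT S s)) :
      Set (TT S s)) ∪ {(⟨s, s_TT S s⟩ : TT S s)})).map (TT S s).subtype =
      StarAlgebra.adjoin ℂ ((S : Set B) ∪ {s}) := by
    rw [StarAlgHom.map_adjoin]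
    congr 1
    ext x
    constructor
    · rintro ⟨y, hy | hy, rfl⟩
      · exact Or.inl hy
      · rw [Set.mem_singleton_iff] at hy
        rw [hy]
        exact Or.inr rfl
    · rintro (hx | hx)
      · exact ⟨⟨x, le_TT S s hx⟩, Or.inl hx, rfl⟩
      · rw [Set.mem_singleton_iff] at hx
        subst hx
        exact ⟨_, Or.inr rfl, rfl⟩
  have h2 : (z : B) ∈ closure ((fun w : TT S s => (w : B)) ''
      ((StarAlgebra.adjoin ℂ (((S.comap (TT S s).subtype : StarSubalgebra ℂ (TT S s)) :
      Set (TT S s)) ∪ {(⟨s, s_TT S s⟩ : TT S s)}) : StarSubalgebra ℂ (TT S s)) :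
        Set (TT S s))) := by
    have h3 : ((fun w : TT S s => (w : B)) ''
      ((StarAlgebra.adjoin ℂ (((S.comap (TT S s).subtype : StarSubalgebra ℂ (TT S s)) :
      Set (TT S s)) ∪ {(⟨s, s_TT S s⟩ : TT S s)}) : StarSubalgebra ℂ (TT S s)) :
        Set (TT S s))) = ((StarAlgebra.adjoin ℂ ((S : Set B) ∪ {s}) : StarSubalgebra ℂ B) :
        Set B) := by
      rw [← h1]
      rfl
    rw [h3]
    exact z.2
  have h0 : Topology.IsInducing (fun w : TT S s => (w : B)) := ⟨rfl⟩
  have h4 := h0.closure_eq_preimage_closure_image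
    ((StarAlgebra.adjoin ℂ (((S.comap (TT S s).subtype : StarSubalgebra ℂ (TT S s)) :
      Set (TT S s)) ∪ {(⟨s, s_TT S s⟩ : TT S s)}) : StarSubalgebra ℂ (TT S s)) :
        Set (TT S s))
  have h5 : z ∈ closure ((StarAlgebra.adjoin ℂ (((S.comap (TT S s).subtype :
      StarSubalgebra ℂ (TT S s)) : Set (TT S s)) ∪ {(⟨s, s_TT S s⟩ : TT S s)}) :
      StarSubalgebra ℂ (TT S s)) : Set (TT S s)) := by
    rw [h4]
    exact h2
  exact h5

/-- the restricted trace -/
def tT (τ : B →ₗ[ℂ] ℂ) (T : StarSubalgebra ℂ B) : T →ₗ[ℂ] ℂ :=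
  τ.comp T.subtype.toAlgHom.toLinearMap

theorem tT_apply (τ : B →ₗ[ℂ] ℂ) (T : StarSubalgebra ℂ B) (x : T) : tT τ T x = τ (x : B) := rfl

theorem Uc_coe (T : StarSubalgebra ℂ B) (x : T) : ∀ m : ℕ, ((Uc x m : T) : B) = Uc (x : B) m
  | 0 => rfl
  | 1 => rfl
  | m + 2 => by
      show ((x * Uc x (m + 1) - Uc x m : T) : B) = (x : B) * Uc (x : B) (m + 1) - Uc (x : B) m
      rw [← Uc_coe T x (m + 1), ← Uc_coe T x m]
      rfl

/-- the Fock model of the generated subalgebra -/
theorem model_TT (hF : S_FOCK) {τ : B →ₗ[ℂ] ℂ} (hτ : FTS τ) (S : StarSubalgebra ℂ B) (s : B)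
    (ssa : star s = s) (sc : ∀ m : ℕ, m ≠ 0 → τ (Uc s m) = 0)
    (hf : FreeFam τ (fun b : Bool => if b then S else StarAlgebra.adjoin ℂ {s})) :
    FTS (tT τ (TT S s)) ∧
    ∃ (H : Type) (_ : NormedAddCommGroup H) (_ : InnerProductSpace ℂ H) (_ : CompleteSpace H)
      (lam : TT S s →⋆ₐ[ℂ] (H →L[ℂ] H)) (l : H →L[ℂ] H) (Ω : H),
      Fk (tT τ (TT S s)) (S.comap (TT S s).subtype) ⟨s, s_TT S s⟩ lam l Ω := by
  obtain ⟨h1, h2⟩ := T_SUB.t_SUB B τ hτ (TT S s)
  refine ⟨h1, ?_⟩
  have h3 := (h2 Bool (fun b => if b then (S.comap (TT S s).subtype : StarSubalgebra ℂ (TT S s))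
    else StarAlgebra.adjoin ℂ {(⟨s, s_TT S s⟩ : TT S s)})).1 (by
      have e : (fun b : Bool => (if b then (S.comap (TT S s).subtype :
          StarSubalgebra ℂ (TT S s)) else
          StarAlgebra.adjoin ℂ {(⟨s, s_TT S s⟩ : TT S s)}).map (TT S s).subtype) =
          fun b : Bool => if b then S else StarAlgebra.adjoin ℂ {s} := by
        funext b
        cases b
        · simp only [Bool.false_eq_true, if_false]
          rw [StarAlgHom.map_adjoin, Set.image_singleton]
          rfl
        · simp only [if_true]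
          ext x
          rw [StarSubalgebra.mem_map]
          constructor
          · rintro ⟨y, hy, rfl⟩
            exact hy
          · intro hx
            exact ⟨⟨x, le_TT S s hx⟩, hx, rfl⟩
      rw [e]
      exact hf)
  obtain ⟨H, i1, i2, i3, lam, l, Ω, a1, a2, a3, a4, a5⟩ := hF (TT S s) (tT τ (TT S s)) h1
    (S.comap (TT S s).subtype) ⟨s, s_TT S s⟩ (Subtype.ext ssa) (fun m hm => by
      rw [tT_apply, Uc_coe]
      exact sc m hm) h3 (gen_TT S s)
  exact ⟨H, i1, i2, i3, lam, l, Ω, a1, a2, a3, a4, a5⟩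

end sub

/-! ### the theorems -/

section main

variable {B : Type} [CStarAlgebra B] {τ : B →ₗ[ℂ] ℂ} {S : StarSubalgebra ℂ B} {u : unitary B}
  {s : B}

/-- the big algebra -/
abbrev TB (S : StarSubalgebra ℂ B) (u : unitary B) (s : B) : StarSubalgebra ℂ B :=
  TT (S ⊔ StarAlgebra.adjoin ℂ {(u : B)}) s

theorem u_mem (S : StarSubalgebra ℂ B) (u : unitary B) :
    (u : B) ∈ S ⊔ StarAlgebra.adjoin ℂ {(u : B)} :=
  (le_sup_right : _ ≤ S ⊔ StarAlgebra.adjoin ℂ {(u : B)})
    (StarAlgebra.subset_adjoin ℂ _ (Set.mem_singleton _))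

theorem x_mem {S : StarSubalgebra ℂ B} (u : unitary B) {x : B} (hx : x ∈ S) :
    x ∈ S ⊔ StarAlgebra.adjoin ℂ {(u : B)} :=
  (le_sup_left : S ≤ S ⊔ StarAlgebra.adjoin ℂ {(u : B)}) hx

/-- the unitary in the big algebra -/
def uT (S : StarSubalgebra ℂ B) (u : unitary B) (s : B) : unitary (TB S u s) :=
  ⟨⟨(u : B), le_TT _ s (u_mem S u)⟩, by
    rw [Unitary.mem_iff]
    exact ⟨Subtype.ext (Unitary.mem_iff.1 u.2).1, Subtype.ext (Unitary.mem_iff.1 u.2).2⟩⟩

/-- `s` in the big algebra -/
def sT (S : StarSubalgebra ℂ B) (u : unitary B) (s : B) : TB S u s := ⟨s, s_TT _ s⟩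

/-- a family in the big algebra -/
def xT {S : StarSubalgebra ℂ B} (u : unitary B) (s : B) {ι : Type} (x : ι → B)
    (hx : ∀ a, x a ∈ S) (a : ι) : TB S u s := ⟨x a, le_TT _ s (x_mem u (hx a))⟩

theorem gp_coe (k : ℤ) : ((gp (uT S u s) k : TB S u s) : B) = gp u k := by
  rcases Int.eq_nat_or_neg k with ⟨n, rfl | rfl⟩
  · rw [gp_nat, gp_nat]; rfl
  · rw [gp_neg, gp_neg, gp_nat, gp_nat]; rfl

theorem orthT (ho : Orth τ S u) :
    Orth (tT τ (TB S u s)) (S.comap (TB S u s).subtype) (uT S u s) := by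
  intro x hx k hk
  rw [tT_apply]
  have : ((x * gp (uT S u s) k : TB S u s) : B) = (x : B) * gp u k := by
    rw [← gp_coe (S := S) (s := s)]; rfl
  rw [this]
  exact ho _ hx k hk

theorem sum_coe (T : StarSubalgebra ℂ B) {ι : Type} [Fintype ι] (f : ι → T) :
    ((∑ a, f a : T) : B) = ∑ a, (f a : B) := map_sum T.subtype f Finset.univ

theorem RT_coe {ι : Type} [Fintype ι] (n : ι → ℕ) {x y : ι → B} (hx : ∀ a, x a ∈ S)
    (hy : ∀ a, y a ∈ S) :
    ((RT (uT S u s) (sT S u s) n (xT u s x hx) (xT u s y hy) : TB S u s) : B) =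
      RT u s n x y := by
  unfold RT
  rw [sum_coe]
  rfl

theorem norm_coe (T : StarSubalgebra ℂ B) (z : T) : ‖z‖ = ‖(z : B)‖ := rfl

theorem nL_coe {ι : Type} [Fintype ι] {x y : ι → B} (hx : ∀ a, x a ∈ S)
    (hy : ∀ a, y a ∈ S) :
    nL (tT τ (TB S u s)) (xT u s x hx) (xT u s y hy) = nL τ x y := by
  unfold nL
  rw [norm_coe, sum_coe]
  rfl

theorem nM_coe {ι : Type} [Fintype ι] {x y : ι → B} (hx : ∀ a, x a ∈ S)
    (hy : ∀ a, y a ∈ S) :
    nM (tT τ (TB S u s)) (xT u s x hx) (xT u s y hy) = nM τ x y := by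
  unfold nM
  rw [norm_coe, sum_coe]
  rfl

theorem RT_coe' {ι : Type} [Fintype ι] (n : ι → ℕ) {x y x' y' : ι → B} (hx : ∀ a, x a ∈ S)
    (hy : ∀ a, y a ∈ S) (hx' : ∀ a, x' a ∈ S) (hy' : ∀ a, y' a ∈ S) :
    ((star (RT (uT S u s) (sT S u s) n (xT u s x hx) (xT u s y hy)) *
      RT (uT S u s) (sT S u s) n (xT u s x' hx') (xT u s y' hy') -
      ∑ a, tT τ (TB S u s) (star (xT u s x hx a) * xT u s x' hx' a) •
        (star (xT u s y hy a) * xT u s y' hy' a) : TB S u s) : B) =
      star (RT u s n x y) * RT u s n x' y' -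
        ∑ a, τ (star (x a) * x' a) • (star (y a) * y' a) := by
  rw [← RT_coe (s := s) (u := u) n hx hy, ← RT_coe (s := s) (u := u) n hx' hy']
  have h : ((∑ a, tT τ (TB S u s) (star (xT u s x hx a) * xT u s x' hx' a) •
        (star (xT u s y hy a) * xT u s y' hy' a) : TB S u s) : B) =
        ∑ a, τ (star (x a) * x' a) • (star (y a) * y' a) := by
    rw [sum_coe]
    rfl
  rw [← h]
  rfl

theorem t_C12 (hF : S_FOCK) : S_C12 := by
  intro B _ τ S u s h ι _ n hn x y x' y' hx hy hx' hy'
  obtain ⟨hτ, H, i1, i2, i3, lam, l, Ω, f⟩ := model_TT hF h.fts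
    (S ⊔ StarAlgebra.adjoin ℂ {(u : B)}) s h.ssa h.sc h.f2
  have ho := orthT (s := s) (orth h)
  set T := TB S u s with hT
  set τ' := tT τ T with hτ'
  have mx : ∀ (x : ι → B) (hx : ∀ a, x a ∈ S) (a : ι),
      Xx (uT S u s) n (xT u s x hx) a ∈
        ((S ⊔ StarAlgebra.adjoin ℂ {(u : B)}).comap (TB S u s).subtype) := by
    intro x hx a
    exact mul_mem (x_mem u (hx a)) (pow_mem (u_mem S u) _)
  have my : ∀ (x : ι → B) (hx : ∀ a, x a ∈ S) (a : ι),
      Yy (uT S u s) n (xT u s x hx) a ∈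
        ((S ⊔ StarAlgebra.adjoin ℂ {(u : B)}).comap (TB S u s).subtype) := by
    intro x hx a
    exact mul_mem (pow_mem (u_mem S u) _) (x_mem u (hx a))
  have mS : ∀ (x : ι → B) (hx : ∀ a, x a ∈ S) (a : ι),
      xT u s x hx a ∈ (S.comap (TB S u s).subtype) := fun x hx a => hx a
  have key := est f (mx x hx) (my y hy) (mx x' hx') (my y' hy')
  rw [Gr1 hτ ho hn _ _ (mS x hx) (mS x hx), Gr1 hτ ho hn _ _ (mS x' hx') (mS x' hx'),
    Gr1 hτ ho hn _ _ (mS x hx) (mS x' hx'), Gr2 hτ ho hn _ _ (mS y hy) (mS y hy),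
    Gr2 hτ ho hn _ _ (mS y' hy') (mS y' hy')] at key
  have e1 : ∀ (x y : ι → B) (hx : ∀ a, x a ∈ S) (hy : ∀ a, y a ∈ S),
      ∑ a, Xx (uT S u s) n (xT u s x hx) a * ⟨s, s_TT _ s⟩ * Yy (uT S u s) n (xT u s y hy) a =
      RT (uT S u s) (sT S u s) n (xT u s x hx) (xT u s y hy) := by
    intro x y hx hy
    rw [RT_eq]
    rfl
  rw [e1 x y hx hy, e1 x' y' hx' hy'] at key
  obtain ⟨k1, k2⟩ := key
  have hL : ∀ (x y : ι → B) (hx : ∀ a, x a ∈ S) (hy : ∀ a, y a ∈ S),
      Real.sqrt ‖∑ a, τ' (star (xT u s x hx a) * xT u s x hx a) •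
        (star (xT u s y hy a) * xT u s y hy a)‖ = nL τ x y :=
    fun x y hx hy => nL_coe (τ := τ) (s := s) (u := u) hx hy
  have hM : ∀ (x y : ι → B) (hx : ∀ a, x a ∈ S) (hy : ∀ a, y a ∈ S),
      Real.sqrt ‖∑ a, τ' (xT u s y hy a * star (xT u s y hy a)) •
        (xT u s x hx a * star (xT u s x hx a))‖ = nM τ x y :=
    fun x y hx hy => nM_coe (τ := τ) (s := s) (u := u) hx hy
  rw [hL x y hx hy, hM x y hx hy, norm_coe, RT_coe n hx hy] at k1
  rw [hL x y hx hy, hM x y hx hy, hL x' y' hx' hy', hM x' y' hx' hy', norm_coe,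
    RT_coe' n hx hy hx' hy'] at k2
  exact ⟨k1, k2⟩

theorem t_C3 (hF : S_FOCK) (hL : S_LAWM) : Pool.Agent.N300.UN.S_C3 := by
  intro B _ τ S u s h ι _ n hn x y hx hy h1 h2
  obtain ⟨hτ, H, i1, i2, i3, lam, l, Ω, f⟩ := model_TT hF h.fts
    (S ⊔ StarAlgebra.adjoin ℂ {(u : B)}) s h.ssa h.sc h.f2
  have ho := orthT (s := s) (orth h)
  have mx : ∀ (x : ι → B) (hx : ∀ a, x a ∈ S) (a : ι),
      Xx (uT S u s) n (xT u s x hx) a ∈
        ((S ⊔ StarAlgebra.adjoin ℂ {(u : B)}).comap (TB S u s).subtype) := by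
    intro x hx a
    exact mul_mem (x_mem u (hx a)) (pow_mem (u_mem S u) _)
  have my : ∀ (x : ι → B) (hx : ∀ a, x a ∈ S) (a : ι),
      Yy (uT S u s) n (xT u s x hx) a ∈
        ((S ⊔ StarAlgebra.adjoin ℂ {(u : B)}).comap (TB S u s).subtype) := by
    intro x hx a
    exact mul_mem (pow_mem (u_mem S u) _) (x_mem u (hx a))
  have mS : ∀ (x : ι → B) (hx : ∀ a, x a ∈ S) (a : ι),
      xT u s x hx a ∈ (S.comap (TB S u s).subtype) := fun x hx a => hx a
  -- the moments of `T* T`
  have m1 : ∀ k, τ ((star (RT u s n x y) * RT u s n x y) ^ k) = um' k := by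
    intro k
    have key := mom hτ f (mx x hx) (my y hy)
      (by
        rw [Gr1 hτ ho hn _ _ (mS x hx) (mS x hx)]
        apply Subtype.ext
        rw [sum_coe]
        exact h1)
      (by
        rw [Gr2 hτ ho hn _ _ (mS y hy) (mS y hy)]
        apply Subtype.ext
        rw [sum_coe]
        exact h2)
      (Gr3 hτ ho (mS x hx) (mS y hy)) k
    rw [← key, ← RT_coe (s := s) (u := u) n hx hy, RT_eq]
    rfl
  -- the moments of `s s`
  have m2 : ∀ k, τ ((s * s) ^ k) = um' k := by
    intro k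
    have hu1 : star (uT S u s : TB S u s) * (uT S u s : TB S u s) = 1 :=
      (Unitary.mem_iff.1 (uT S u s).2).1
    have hu2 : (uT S u s : TB S u s) * star (uT S u s : TB S u s) = 1 :=
      (Unitary.mem_iff.1 (uT S u s).2).2
    have hu3 : tT τ (TB S u s) (star (uT S u s : TB S u s)) = 0 := by
      have h3 := h.hu (-1) (by norm_num)
      have h4 : ((star (uT S u s : TB S u s) : TB S u s) : B) = gp u (-1) := by
        rw [gp_neg]
        unfold gp
        rw [zpow_one]
        rfl
      rw [tT_apply, h4]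
      exact h3
    have key := mom (ι := Unit) hτ f (X := fun _ => (uT S u s : TB S u s)) (Y := fun _ => 1)
      (fun _ => u_mem S u) (fun _ => one_mem _)
      (by
        unfold Gr
        simp only [Finset.univ_unique, Finset.sum_const, Finset.card_singleton, one_smul]
        rw [hu1, hτ.one, star_one, one_mul, one_smul])
      (by
        unfold Gr
        simp only [Finset.univ_unique, Finset.sum_const, Finset.card_singleton, one_smul]
        rw [star_one, star_one, one_mul, hτ.one, star_star, one_smul, hu2])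
      (by
        unfold Gr
        simp only [Finset.univ_unique, Finset.sum_const, Finset.card_singleton, one_smul]
        rw [star_one, mul_one, hu3, zero_smul]) k
    rw [← key]
    simp only [Finset.univ_unique, Finset.sum_const, Finset.card_singleton, one_smul, mul_one]
    rw [tT_apply]
    have hs : ((star ((uT S u s : TB S u s) * ⟨s, s_TT _ s⟩) *
        ((uT S u s : TB S u s) * ⟨s, s_TT _ s⟩) : TB S u s) : B) = s * s := by
      show star ((u : B) * s) * ((u : B) * s) = s * s
      rw [star_mul, h.ssa, mul_assoc, ← mul_assoc (star (u : B)), (Unitary.mem_iff.1 u.2).1,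
        one_mul]
    have hp : (((star ((uT S u s : TB S u s) * ⟨s, s_TT _ s⟩) *
        ((uT S u s : TB S u s) * ⟨s, s_TT _ s⟩)) ^ k : TB S u s) : B) =
        ((star ((uT S u s : TB S u s) * ⟨s, s_TT _ s⟩) *
        ((uT S u s : TB S u s) * ⟨s, s_TT _ s⟩) : TB S u s) : B) ^ k := rfl
    rw [hp, hs]
  exact hL B B τ τ h.fts h.fts _ _ (by rw [star_mul, star_star]) (by rw [star_mul, h.ssa])
    (fun k => by rw [m1, m2])

end main

end Pool.Agent.N123.UN
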